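import Pool.Agent.UL3.Stmts

/-!
# Squad UL3, row EEB: the height from above
-/

set_option autoImplicit false

namespace Pool.Agent.UL3.H13

open MeasureTheory Set Pool.Agent.UL3

/-- the integral of a polynomial of degree four. -/
theorem int_poly (c0 c1 c2 c3 c4 a b : ℝ) :
    ∫ x in a..b, (c0 + c1 * x + c2 * x ^ 2 + c3 * x ^ 3 + c4 * x ^ 4)
      = c0 * (b - a) + c1 * (b ^ 2 - a ^ 2) / 2 + c2 * (b ^ 3 - a ^ 3) / 3
        + c3 * (b ^ 4 - a ^ 4) / 4 + c4 * (b ^ 5 - a ^ 5) / 5 := by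
  have hd : ∀ x ∈ uIcc a b, HasDerivAt
      (fun x : ℝ => c0 * x + c1 / 2 * x ^ 2 + c2 / 3 * x ^ 3 + c3 / 4 * x ^ 4 + c4 / 5 * x ^ 5)
      (c0 + c1 * x + c2 * x ^ 2 + c3 * x ^ 3 + c4 * x ^ 4) x := by
    intro x _
    have h := (((((hasDerivAt_id' x).const_mul c0).add ((hasDerivAt_pow 2 x).const_mul (c1 / 2))).add
      ((hasDerivAt_pow 3 x).const_mul (c2 / 3))).add ((hasDerivAt_pow 4 x).const_mul (c3 / 4))).add
      ((hasDerivAt_pow 5 x).const_mul (c4 / 5))
    refine HasDerivAt.congr_deriv h ?_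
    norm_num
    ring
  rw [intervalIntegral.integral_eq_sub_of_hasDerivAt hd
    (Continuous.intervalIntegrable (by fun_prop) _ _)]
  ring

/-- comparison with a polynomial. -/
theorem mono_poly (c0 c1 c2 c3 c4 a b : ℝ) (hab : a ≤ b) (g : ℝ → ℝ)
    (hg : IntervalIntegrable g volume a b)
    (h : ∀ x ∈ Icc a b, c0 + c1 * x + c2 * x ^ 2 + c3 * x ^ 3 + c4 * x ^ 4 ≤ g x) :
    c0 * (b - a) + c1 * (b ^ 2 - a ^ 2) / 2 + c2 * (b ^ 3 - a ^ 3) / 3
        + c3 * (b ^ 4 - a ^ 4) / 4 + c4 * (b ^ 5 - a ^ 5) / 5 ≤ ∫ x in a..b, g x := by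
  rw [← int_poly]
  exact intervalIntegral.integral_mono_on hab (Continuous.intervalIntegrable (by fun_prop) _ _) hg h

/-- **EEB** -/
theorem eeb : EebStmt := by
  intro H G hG
  have hH : 3 / 4 ≤ H := hG.le
  obtain ⟨s, hs⟩ : ∃ s : ℝ, s = 5372 / 10000 := ⟨_, rfl⟩
  have hsG : s ≤ G (3 / 4) := by
    rw [hs]
    have h := hG.low
    norm_num at h ⊢
    exact h
  have hint : IntervalIntegrable (fun x => G x ^ 2) volume 0 H := by
    by_contra hcon
    have h := hG.mass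
    rw [intervalIntegral.integral_undef hcon] at h
    norm_num at h
  have hint2 : IntervalIntegrable (fun x => x ^ 2 * G x ^ 2) volume 0 H :=
    hint.continuousOn_mul (by fun_prop)
  have hsub1 : uIcc (0 : ℝ) (3 / 4) ⊆ uIcc 0 H := by
    rw [uIcc_of_le (by norm_num), uIcc_of_le (by linarith)]
    exact Icc_subset_Icc_right hH
  have hsub2 : uIcc (3 / 4 : ℝ) H ⊆ uIcc 0 H := by
    rw [uIcc_of_le hH, uIcc_of_le (by linarith)]
    exact Icc_subset_Icc_left (by norm_num)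
  have h1a := hint.mono_set hsub1
  have h1b := hint.mono_set hsub2
  have h2a := hint2.mono_set hsub1
  have h2b := hint2.mono_set hsub2
  have hsp1 := intervalIntegral.integral_add_adjacent_intervals h1a h1b
  have hsp2 := intervalIntegral.integral_add_adjacent_intervals h2a h2b
  obtain ⟨k, hk⟩ : ∃ k : ℝ, k = 4 * (1 - s) / 3 := ⟨_, rfl⟩
  have h0mem : (0 : ℝ) ∈ Icc 0 H := ⟨le_rfl, by linarith⟩
  have hHmem : H ∈ Icc 0 H := ⟨by linarith, le_rfl⟩
  have h34mem : (3 / 4 : ℝ) ∈ Icc 0 H := ⟨by norm_num, hH⟩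
  -- the first piece
  have hL1 : ∀ x ∈ Icc (0 : ℝ) (3 / 4), 0 ≤ 1 - k * x ∧ 1 - k * x ≤ G x := by
    intro x hx
    constructor
    · rw [hk, hs]
      nlinarith [hx.1, hx.2]
    · have hc := hG.cc.2 h0mem h34mem (show 0 ≤ 1 - 4 / 3 * x by linarith [hx.2])
        (show 0 ≤ 4 / 3 * x by linarith [hx.1]) (by ring)
      have e : (1 - 4 / 3 * x) • (0 : ℝ) + (4 / 3 * x) • (3 / 4 : ℝ) = x := by
        simp only [smul_eq_mul]
        ring
      rw [e, hG.zero] at hc
      simp only [smul_eq_mul] at hc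
      have h5 : 4 / 3 * x * s ≤ 4 / 3 * x * G (3 / 4) :=
        mul_le_mul_of_nonneg_left hsG (by linarith [hx.1])
      rw [hk]
      linarith
  have hA1 : (1 + s + s ^ 2) / 4 ≤ ∫ x in (0 : ℝ)..(3 / 4), G x ^ 2 := by
    have h := mono_poly 1 (-(2 * k)) (k ^ 2) 0 0 0 (3 / 4) (by norm_num) _ h1a (by
        intro x hx
        obtain ⟨p1, p2⟩ := hL1 x hx
        have h6 : (1 - k * x) ^ 2 ≤ G x ^ 2 := pow_le_pow_left₀ p1 p2 2
        have e : 1 + -(2 * k) * x + k ^ 2 * x ^ 2 + 0 * x ^ 3 + 0 * x ^ 4 = (1 - k * x) ^ 2 := by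
          ring
        rw [e]
        exact h6)
    refine le_trans (le_of_eq ?_) h
    rw [hk]
    ring
  have hA2 : 27 / 64 * (1 / 3 - (1 - s) / 2 + (1 - s) ^ 2 / 5)
      ≤ ∫ x in (0 : ℝ)..(3 / 4), x ^ 2 * G x ^ 2 := by
    have h := mono_poly 0 0 1 (-(2 * k)) (k ^ 2) 0 (3 / 4) (by norm_num) _ h2a (by
        intro x hx
        obtain ⟨p1, p2⟩ := hL1 x hx
        have h6 : x ^ 2 * (1 - k * x) ^ 2 ≤ x ^ 2 * G x ^ 2 :=
          mul_le_mul_of_nonneg_left (pow_le_pow_left₀ p1 p2 2) (by positivity)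
        have e : 0 + 0 * x + 1 * x ^ 2 + -(2 * k) * x ^ 3 + k ^ 2 * x ^ 4
            = x ^ 2 * (1 - k * x) ^ 2 := by
          ring
        rw [e]
        exact h6)
    refine le_trans (le_of_eq ?_) h
    rw [hk]
    ring
  -- the second piece
  obtain ⟨η, hη⟩ : ∃ η : ℝ, η = H - 3 / 4 := ⟨_, rfl⟩
  have hη0 : 0 ≤ η := by
    rw [hη]
    linarith
  have hHη : H = 3 / 4 + η := by
    rw [hη]
    ring
  have hs0 : 0 ≤ s := by
    rw [hs]
    norm_num
  have hB : η * s ^ 2 / 3 ≤ (∫ x in (3 / 4 : ℝ)..H, G x ^ 2) ∧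
      s ^ 2 * η * (3 / 16 + η / 8 + η ^ 2 / 30) ≤ ∫ x in (3 / 4 : ℝ)..H, x ^ 2 * G x ^ 2 := by
    rcases hη0.eq_or_lt with h0 | hpos
    · have hH' : H = 3 / 4 := by rw [hHη, ← h0, add_zero]
      rw [hH', intervalIntegral.integral_same, intervalIntegral.integral_same, ← h0]
      constructor <;> norm_num
    · have hL2 : ∀ x ∈ Icc (3 / 4 : ℝ) H, 0 ≤ s * (H - x) / η ∧ s * (H - x) / η ≤ G x := by
        intro x hx
        have hx2 : 0 ≤ H - x := by linarith [hx.2]
        constructor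
        · positivity
        · have hc := hG.cc.2 h34mem hHmem (show 0 ≤ (H - x) / η by positivity)
            (show 0 ≤ (x - 3 / 4) / η from div_nonneg (by linarith [hx.1]) hη0) (by
              rw [← add_div, div_eq_one_iff_eq hpos.ne', hη]
              ring)
          have e : ((H - x) / η) • (3 / 4 : ℝ) + ((x - 3 / 4) / η) • H = x := by
            simp only [smul_eq_mul]
            rw [div_mul_eq_mul_div, div_mul_eq_mul_div, ← add_div, div_eq_iff hpos.ne', hη]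
            ring
          rw [e] at hc
          simp only [smul_eq_mul] at hc
          have h5 : (H - x) / η * s ≤ (H - x) / η * G (3 / 4) :=
            mul_le_mul_of_nonneg_left hsG (by positivity)
          have h6 : 0 ≤ (x - 3 / 4) / η * G H :=
            mul_nonneg (div_nonneg (by linarith [hx.1]) hη0) (hG.rng H hHmem).1
          have e2 : s * (H - x) / η = (H - x) / η * s := by ring
          rw [e2]
          linarith
      constructor
      · have h := mono_poly (s ^ 2 * H ^ 2 / η ^ 2) (-(2 * s ^ 2 * H / η ^ 2)) (s ^ 2 / η ^ 2) 0 0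
          (3 / 4) H hH _ h1b (by
            intro x hx
            obtain ⟨p1, p2⟩ := hL2 x hx
            have h6 : (s * (H - x) / η) ^ 2 ≤ G x ^ 2 := pow_le_pow_left₀ p1 p2 2
            have e : s ^ 2 * H ^ 2 / η ^ 2 + -(2 * s ^ 2 * H / η ^ 2) * x + s ^ 2 / η ^ 2 * x ^ 2
                + 0 * x ^ 3 + 0 * x ^ 4 = (s * (H - x) / η) ^ 2 := by
              ring
            rw [e]
            exact h6)
        refine le_trans (le_of_eq ?_) h
        rw [hHη]
        field_simp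
        ring
      · have h := mono_poly 0 0 (s ^ 2 * H ^ 2 / η ^ 2) (-(2 * s ^ 2 * H / η ^ 2)) (s ^ 2 / η ^ 2)
          (3 / 4) H hH _ h2b (by
            intro x hx
            obtain ⟨p1, p2⟩ := hL2 x hx
            have h6 : x ^ 2 * (s * (H - x) / η) ^ 2 ≤ x ^ 2 * G x ^ 2 :=
              mul_le_mul_of_nonneg_left (pow_le_pow_left₀ p1 p2 2) (by positivity)
            have e : 0 + 0 * x + s ^ 2 * H ^ 2 / η ^ 2 * x ^ 2 + -(2 * s ^ 2 * H / η ^ 2) * x ^ 3
                + s ^ 2 / η ^ 2 * x ^ 4 = x ^ 2 * (s * (H - x) / η) ^ 2 := by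
              ring
            rw [e]
            exact h6)
        refine le_trans (le_of_eq ?_) h
        rw [hHη]
        field_simp
        ring
  obtain ⟨hB1, hB2⟩ := hB
  have hmass := hG.mass
  have hηle : η ≤ 4528 / 10000 := by
    have h : (1 + s + s ^ 2) / 4 + η * s ^ 2 / 3 ≤ 1 / 2 := by
      rw [← hmass, ← hsp1]
      linarith
    rw [hs] at h
    norm_num at h
    linarith
  rw [← hsp2]
  have hfin : H ^ 2 / (784 / 100) ≤ 2 * (27 / 64 * (1 / 3 - (1 - s) / 2 + (1 - s) ^ 2 / 5)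
      + s ^ 2 * η * (3 / 16 + η / 8 + η ^ 2 / 30)) := by
    rw [hHη, hs]
    have h7 : 0 ≤ η * (4528 / 10000 - η) := mul_nonneg hη0 (by linarith)
    have h8 : 0 ≤ η ^ 3 := by positivity
    nlinarith
  linarith

end Pool.Agent.UL3.H13
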